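import Pool.Agent.X136.HT.Stm

/-!
# The asymptotic lower bound of the project HT
-/

set_option autoImplicit false

open Filter Topology

namespace Pool.Agent.X296.HT

lemma sum_Icc_range (f : ℕ → ℝ) (N : ℕ) :
    ∑ k ∈ Finset.Icc 1 N, f k = ∑ i ∈ Finset.range N, f (i + 1) := by
  induction N with
  | zero => simp
  | succ n ih => rw [Finset.sum_Icc_succ_top (by omega), Finset.sum_range_succ, ih]

/-- `x^(1-p) - (x+1)^(1-p) ≥ (p-1) (x+1)^(-p)` -/
lemma lem1 {p x : ℝ} (hp : 1 < p) (hx : 0 < x) :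
    (p - 1) * (x + 1) ^ (-p) ≤ x ^ (1 - p) - (x + 1) ^ (1 - p) := by
  have hy : 0 < x + 1 := by positivity
  have hb : 1 + p * (1 / x) ≤ (1 + 1 / x) ^ p :=
    one_add_mul_self_le_rpow_one_add (by
      have : 0 < 1 / x := by positivity
      linarith) hp.le
  have e1 : (1 + 1 / x) ^ p = (x + 1) ^ p * x ^ (-p) := by
    rw [show 1 + 1 / x = (x + 1) / x by field_simp, Real.div_rpow hy.le hx.le,
      Real.rpow_neg hx.le, div_eq_mul_inv]
  have e2 : x ^ (1 - p) = x * x ^ (-p) := by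
    rw [show (1 : ℝ) - p = 1 + -p by ring, Real.rpow_add hx, Real.rpow_one]
  have e3 : (x + 1) ^ (1 - p) = (x + 1) * (x + 1) ^ (-p) := by
    rw [show (1 : ℝ) - p = 1 + -p by ring, Real.rpow_add hy, Real.rpow_one]
  have e4 : (x + 1) ^ p * (x + 1) ^ (-p) = 1 := by
    rw [← Real.rpow_add hy, add_neg_cancel, Real.rpow_zero]
  have h5 : 0 < (x + 1) ^ (-p) := Real.rpow_pos_of_pos hy _
  have h6 : x + p ≤ x * ((x + 1) ^ p * x ^ (-p)) := by
    rw [← e1]
    have := mul_le_mul_of_nonneg_left hb hx.le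
    have h7 : x * (1 + p * (1 / x)) = x + p := by field_simp
    linarith
  have h8 : (x + p) * (x + 1) ^ (-p) ≤ x * x ^ (-p) := by
    have h9 := mul_le_mul_of_nonneg_right h6 h5.le
    have h10 : x * ((x + 1) ^ p * x ^ (-p)) * (x + 1) ^ (-p) = x * x ^ (-p) := by
      calc x * ((x + 1) ^ p * x ^ (-p)) * (x + 1) ^ (-p) =
          x * x ^ (-p) * ((x + 1) ^ p * (x + 1) ^ (-p)) := by ring
        _ = x * x ^ (-p) := by rw [e4, mul_one]
    linarith
  rw [e2, e3]
  linarith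

/-- one step of the sum -/
lemma lem2 {p x : ℝ} (hp : 1 < p) (hx : 0 < x) :
    p / (p - 1) * ((x + 1) ^ ((p - 1) / p) - x ^ ((p - 1) / p)) ≤ x ^ (-1 / p) := by
  have hp0 : 0 < p := by linarith
  have hp1 : 0 < p - 1 := by linarith
  have hy : 0 < x + 1 := by positivity
  have hb : (1 + 1 / x) ^ ((p - 1) / p) ≤ 1 + (p - 1) / p * (1 / x) :=
    rpow_one_add_le_one_add_mul_self (by
      have : 0 < 1 / x := by positivity
      linarith) (by positivity) (by rw [div_le_one hp0]; linarith)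
  have e1 : (1 + 1 / x) ^ ((p - 1) / p) = (x + 1) ^ ((p - 1) / p) / x ^ ((p - 1) / p) := by
    rw [show 1 + 1 / x = (x + 1) / x by field_simp, Real.div_rpow hy.le hx.le]
  have hxq : 0 < x ^ ((p - 1) / p) := Real.rpow_pos_of_pos hx _
  rw [e1, div_le_iff₀ hxq] at hb
  have e2 : x ^ (-1 / p) = x ^ ((p - 1) / p) * (1 / x) := by
    rw [show -1 / p = (p - 1) / p + -1 by field_simp; ring, Real.rpow_add hx, Real.rpow_neg_one,
      one_div]
  have h3 : (x + 1) ^ ((p - 1) / p) - x ^ ((p - 1) / p) ≤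
      (p - 1) / p * (x ^ ((p - 1) / p) * (1 / x)) := by
    have : (1 + (p - 1) / p * (1 / x)) * x ^ ((p - 1) / p) =
      x ^ ((p - 1) / p) + (p - 1) / p * (x ^ ((p - 1) / p) * (1 / x)) := by ring
    linarith
  rw [e2]
  calc p / (p - 1) * ((x + 1) ^ ((p - 1) / p) - x ^ ((p - 1) / p))
      ≤ p / (p - 1) * ((p - 1) / p * (x ^ ((p - 1) / p) * (1 / x))) :=
        mul_le_mul_of_nonneg_left h3 (by positivity)
    _ = x ^ ((p - 1) / p) * (1 / x) := by
        rw [← mul_assoc, div_mul_div_comm, mul_comm p (p - 1),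
          div_self (by positivity), one_mul]

lemma lem3 {p : ℝ} (hp : 1 < p) (k : ℕ) :
    p / (p - 1) * (((k : ℝ) + 1) ^ ((p - 1) / p) - 1) ≤
      ∑ j ∈ Finset.Icc 1 k, (j : ℝ) ^ (-1 / p) := by
  rw [sum_Icc_range (fun j => (j : ℝ) ^ (-1 / p))]
  induction k with
  | zero => simp
  | succ n ih =>
    rw [Finset.sum_range_succ]
    have h := lem2 hp (x := (n : ℝ) + 1) (by positivity)
    push_cast at ih ⊢
    have e : p / (p - 1) * (((n : ℝ) + 1 + 1) ^ ((p - 1) / p) - 1) =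
        p / (p - 1) * (((n : ℝ) + 1) ^ ((p - 1) / p) - 1) +
        p / (p - 1) * (((n : ℝ) + 1 + 1) ^ ((p - 1) / p) - ((n : ℝ) + 1) ^ ((p - 1) / p)) := by
      ring
    rw [e]
    exact add_le_add ih h

/-- the term -/
lemma lem4 {p : ℝ} (hp : 1 < p) {k : ℕ} (hk : 1 ≤ k) :
    p ^ p / (p - 1) ^ (p - 1) * (1 - ((k : ℝ) + 1) ^ (-((p - 1) / p))) ^ p / ((k : ℝ) + 1) ≤
      ((k : ℝ) ^ (1 - p) - ((k : ℝ) + 1) ^ (1 - p)) *
        (∑ j ∈ Finset.Icc 1 k, (j : ℝ) ^ (-1 / p)) ^ p := by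
  have hp0 : 0 < p := by linarith
  have hp1 : 0 < p - 1 := by linarith
  have hk0 : (0 : ℝ) < k := by exact_mod_cast hk
  set y : ℝ := (k : ℝ) + 1 with hy
  have hy0 : 0 < y := by positivity
  have hy1 : 1 ≤ y := by rw [hy]; linarith
  have hq : 0 < (p - 1) / p := by positivity
  have hyq : 1 ≤ y ^ ((p - 1) / p) := Real.one_le_rpow hy1 hq.le
  have hyn : y ^ (-((p - 1) / p)) = (y ^ ((p - 1) / p))⁻¹ := Real.rpow_neg hy0.le _
  have h1y : 0 ≤ 1 - y ^ (-((p - 1) / p)) := by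
    rw [hyn]
    have := inv_le_one_of_one_le₀ hyq
    linarith
  have h1 := lem1 hp hk0
  have h2 := lem3 hp k
  have h3 : 0 ≤ p / (p - 1) * (y ^ ((p - 1) / p) - 1) :=
    mul_nonneg (by positivity) (by linarith)
  have h4 := Real.rpow_le_rpow h3 h2 hp0.le
  have e1 : p / (p - 1) * (y ^ ((p - 1) / p) - 1) =
      p / (p - 1) * y ^ ((p - 1) / p) * (1 - y ^ (-((p - 1) / p))) := by
    rw [hyn]
    field_simp
  have e2 : (p / (p - 1) * (y ^ ((p - 1) / p) - 1)) ^ p =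
      p ^ p / (p - 1) ^ p * y ^ (p - 1) * (1 - y ^ (-((p - 1) / p))) ^ p := by
    rw [e1, Real.mul_rpow (by positivity) h1y, Real.mul_rpow (by positivity) (by positivity),
      Real.div_rpow hp0.le hp1.le, ← Real.rpow_mul hy0.le, div_mul_cancel₀ _ hp0.ne']
  have h5 : 0 ≤ (p - 1) * y ^ (-p) := by positivity
  have h6 : 0 ≤ (∑ j ∈ Finset.Icc 1 k, (j : ℝ) ^ (-1 / p)) ^ p :=
    Real.rpow_nonneg (h3.trans h2) _
  have h7 : (p - 1) * y ^ (-p) * (p / (p - 1) * (y ^ ((p - 1) / p) - 1)) ^ p ≤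
      ((k : ℝ) ^ (1 - p) - y ^ (1 - p)) * (∑ j ∈ Finset.Icc 1 k, (j : ℝ) ^ (-1 / p)) ^ p :=
    mul_le_mul h1 h4 (Real.rpow_nonneg h3 _) (h5.trans h1)
  refine le_trans (le_of_eq ?_) h7
  rw [e2]
  have e3 : (p - 1) ^ p = (p - 1) ^ (p - 1) * (p - 1) := by
    rw [show (p - 1) ^ p = (p - 1) ^ ((p - 1) + 1) by ring_nf, Real.rpow_add hp1, Real.rpow_one]
  have e4 : y ^ (-p) * y ^ (p - 1) = 1 / y := by
    rw [← Real.rpow_add hy0, show -p + (p - 1) = -1 by ring, Real.rpow_neg_one, one_div]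
  have hC : (p - 1) ^ (p - 1) ≠ 0 := (Real.rpow_pos_of_pos hp1 _).ne'
  calc p ^ p / (p - 1) ^ (p - 1) * (1 - y ^ (-((p - 1) / p))) ^ p / y =
      p ^ p / (p - 1) ^ (p - 1) * (1 - y ^ (-((p - 1) / p))) ^ p * (1 / y) := by ring
    _ = p ^ p / (p - 1) ^ (p - 1) * (1 - y ^ (-((p - 1) / p))) ^ p *
        (y ^ (-p) * y ^ (p - 1)) := by rw [e4]
    _ = (p - 1) * y ^ (-p) * (p ^ p / (p - 1) ^ p * y ^ (p - 1) *
        (1 - y ^ (-((p - 1) / p))) ^ p) := by
      rw [e3]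
      field_simp

theorem t_ASY : Pool.Agent.X136.HT.S_ASY := by
  intro p hp K hK hN
  have hp0 : 0 < p := by linarith
  have hp1 : 0 < p - 1 := by linarith
  set C : ℝ := p ^ p / (p - 1) ^ (p - 1) with hC
  have hC0 : 0 < C := div_pos (Real.rpow_pos_of_pos hp0 _) (Real.rpow_pos_of_pos hp1 _)
  by_contra hcon
  push Not at hcon
  -- the factor tends to one
  have hlim : Tendsto (fun k : ℕ => C * (1 - ((k : ℝ) + 1) ^ (-((p - 1) / p))) ^ p) atTop
      (𝓝 C) := by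
    have h1 : Tendsto (fun k : ℕ => (k : ℝ) + 1) atTop atTop :=
      tendsto_atTop_add_const_right _ _ tendsto_natCast_atTop_atTop
    have h2 : Tendsto (fun k : ℕ => ((k : ℝ) + 1) ^ (-((p - 1) / p))) atTop (𝓝 0) :=
      (tendsto_rpow_neg_atTop (by positivity)).comp h1
    have h3 : Tendsto (fun k : ℕ => 1 - ((k : ℝ) + 1) ^ (-((p - 1) / p))) atTop (𝓝 (1 - 0)) :=
      tendsto_const_nhds.sub h2
    rw [sub_zero] at h3
    have h4 := (h3.rpow_const (p := p) (Or.inl one_ne_zero)).const_mul C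
    rwa [Real.one_rpow, mul_one] at h4
  set D : ℝ := (K + C) / 2 with hD
  have hKD : K < D := by rw [hD]; linarith
  have hDC : D < C := by rw [hD]; linarith
  have hD0 : 0 < D := by linarith
  obtain ⟨k₀, hk₀⟩ := eventually_atTop.1 (hlim.eventually (lt_mem_nhds hDC))
  -- the terms
  have hterm : ∀ i : ℕ, D / ((i : ℝ) + 1 + 1) - (if i < k₀ then D else 0) ≤
      (((i + 1 : ℕ) : ℝ) ^ (1 - p) - (((i + 1 : ℕ) : ℝ) + 1) ^ (1 - p)) *
        (∑ j ∈ Finset.Icc 1 (i + 1), (j : ℝ) ^ (-1 / p)) ^ p := by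
    intro i
    have h1 := lem4 hp (k := i + 1) (by omega)
    refine le_trans ?_ h1
    have hy : (((i + 1 : ℕ) : ℝ) + 1) = (i : ℝ) + 1 + 1 := by push_cast; ring
    have hpos : (0 : ℝ) < (i : ℝ) + 1 + 1 := by positivity
    split_ifs with h
    · have h2 : D / ((i : ℝ) + 1 + 1) ≤ D := by
        rw [div_le_iff₀ hpos]
        have : (0 : ℝ) ≤ i := by positivity
        nlinarith
      have h3 : 0 ≤ C * (1 - (((i + 1 : ℕ) : ℝ) + 1) ^ (-((p - 1) / p))) ^ p /
          (((i + 1 : ℕ) : ℝ) + 1) := by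
        rw [hy]
        refine div_nonneg (mul_nonneg hC0.le (Real.rpow_nonneg ?_ _)) hpos.le
        rw [Real.rpow_neg hpos.le]
        have h4 : 1 ≤ ((i : ℝ) + 1 + 1) ^ ((p - 1) / p) :=
          Real.one_le_rpow (by linarith [(by positivity : (0 : ℝ) ≤ i)]) (by positivity)
        have := inv_le_one_of_one_le₀ h4
        linarith
      linarith
    · have h2 := hk₀ (i + 1) (by omega)
      rw [sub_zero, hy] at *
      exact div_le_div_of_nonneg_right (by simpa [hy] using h2.le) hpos.le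
  -- the sums
  have hsum : ∀ N : ℕ, D * (∑ i ∈ Finset.range N, (1 / ((i : ℝ) + 1))) - D - k₀ * D ≤
      K * ∑ i ∈ Finset.range N, (1 / ((i : ℝ) + 1)) := by
    intro N
    have h1 := hN N
    rw [sum_Icc_range (fun k : ℕ => ((k : ℝ) ^ (1 - p) - ((k : ℝ) + 1) ^ (1 - p)) *
      (∑ j ∈ Finset.Icc 1 k, (j : ℝ) ^ (-1 / p)) ^ p),
      sum_Icc_range (fun j : ℕ => (1 : ℝ) / j)] at h1
    have h2 := Finset.sum_le_sum (s := Finset.range N) fun i _ => hterm i
    have h3 : ∑ i ∈ Finset.range N, ((1 : ℝ) / ((i + 1 : ℕ) : ℝ)) =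
        ∑ i ∈ Finset.range N, (1 / ((i : ℝ) + 1)) :=
      Finset.sum_congr rfl fun i _ => by push_cast; rfl
    rw [h3] at h1
    refine le_trans ?_ (h2.trans h1)
    rw [Finset.sum_sub_distrib]
    have h4 : ∑ i ∈ Finset.range N, (if i < k₀ then D else 0) ≤ k₀ * D := by
      rw [← Finset.sum_filter, Finset.sum_const, nsmul_eq_mul]
      refine mul_le_mul_of_nonneg_right ?_ hD0.le
      have : (Finset.filter (fun i => i < k₀) (Finset.range N)).card ≤ (Finset.range k₀).card :=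
        Finset.card_le_card fun i hi => by
          rw [Finset.mem_filter] at hi
          exact Finset.mem_range.2 hi.2
      rw [Finset.card_range] at this
      exact_mod_cast this
    have h5 : ∑ i ∈ Finset.range N, (1 / ((i : ℝ) + 1)) - 1 ≤
        ∑ i ∈ Finset.range N, (1 / ((i : ℝ) + 1 + 1)) := by
      have h6 : ∑ i ∈ Finset.range (N + 1), (1 / ((i : ℝ) + 1)) =
          ∑ i ∈ Finset.range N, (1 / ((i : ℝ) + 1 + 1)) + 1 := by
        rw [Finset.sum_range_succ']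
        congr 1
        · exact Finset.sum_congr rfl fun i _ => by push_cast; ring
        · simp
      rw [Finset.sum_range_succ] at h6
      have : (0 : ℝ) ≤ 1 / ((N : ℝ) + 1) := by positivity
      linarith
    have h7 : ∑ i ∈ Finset.range N, D / ((i : ℝ) + 1 + 1) =
        D * ∑ i ∈ Finset.range N, (1 / ((i : ℝ) + 1 + 1)) := by
      rw [Finset.mul_sum]
      exact Finset.sum_congr rfl fun i _ => by ring
    rw [h7]
    have h8 := mul_le_mul_of_nonneg_left h5 hD0.le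
    linarith
  -- the harmonic series diverges
  have hH := Real.tendsto_sum_range_one_div_nat_succ_atTop
  obtain ⟨N, hN'⟩ := (hH.eventually (eventually_gt_atTop ((D + k₀ * D) / (D - K)))).exists
  have h1 := hsum N
  rw [div_lt_iff₀ (by linarith)] at hN'
  nlinarith

end Pool.Agent.X296.HT
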